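import Pool.Agent.TH958.TB.Pts

/-!
Independent points on the twist of Legendre's curve by `h`, and the order of vanishing.
-/

set_option autoImplicit false
set_option linter.all false
set_option maxHeartbeats 4000000

open Polynomial WeierstrassCurve WeierstrassCurve.Affine
open scoped Classical

namespace Pool.Agent.TH958.TB

open Pool.Agent.W343.BSD Pool.Agent.W309.RK
open Pool.Agent.TH958.T8 (IsOrd hasRoot_base card_two_of_eq)
open Pool.Agent.TH958.T9 (A A_inj A_C phi phi_A splits irr isOrd_at ordAt_const ord_val)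
open Pool.Agent.TH958.TA (surj_option)
open Pool.Agent.TH115.GD (Pt act incl act_inj)
open Pool.Agent.TH958.T4 (ord_sub_const ord_shift ord_of_zero ne_of_pos ord_nonneg_sub fac_sub
  twoPart_odd sum_insert_le six_ne disc_short)

section rat

variable {k : Type} [Field k]

theorem lower_rat (h6 : (6 : k) ≠ 0) {p : ℕ} [Fact p.Prime] [CharP k p] {ν m e d : ℕ}
    (hν : 1 ≤ ν) (hm : p ^ ν + 1 = 2 * m) (hed : p ^ ν + 1 = d * e) (hdo : Odd d) {i : k}
    (hi : i ^ 2 = -1) {ω : k} (hω : IsPrimitiveRoot ω (p ^ ν + 1)) :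
    ∃ P : Fin (d - 1) → Pt (crw d (A (X : k[X]))) (RatFunc k), LinearIndependent ℤ P := by
  have h2 : (2 : k) ≠ 0 := fun e => h6 (by linear_combination 3 * e)
  have h3 : (3 : k) ≠ 0 := fun e => h6 (by linear_combination 2 * e)
  have h2K : (2 : RatFunc k) ≠ 0 := by
    have : algebraMap k (RatFunc k) 2 ≠ 0 := by simpa using h2
    rwa [map_ofNat] at this
  have h3K : (3 : RatFunc k) ≠ 0 := by
    have : algebraMap k (RatFunc k) 3 ≠ 0 := by simpa using h3
    rwa [map_ofNat] at this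
  have hprod : 0 < d * e := by omega
  have hd : 0 < d := Nat.pos_of_mul_pos_right hprod
  have he : 0 < e := Nat.pos_of_mul_pos_left hprod
  obtain ⟨e', he2⟩ : ∃ e', e = 2 * e' := by
    have h5 : Even (d * e) := by
      rw [← hed, hm]
      exact even_two_mul m
    rcases Nat.even_mul.1 h5 with h7 | h7
    · exact absurd h7 (Nat.not_even_iff_odd.2 hdo)
    · obtain ⟨r, hr⟩ := h7
      exact ⟨r, by rw [hr]; ring⟩
  have hε : IsPrimitiveRoot (ω ^ d) e := hω.pow (by omega) hed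
  have hδ : IsPrimitiveRoot (ω ^ e) d := hω.pow (by omega) (by rw [hed, mul_comm])
  have hω0 : ω ≠ 0 := hω.ne_zero (by omega)
  have hpe : ¬ p ∣ e := by
    intro hd'
    have h1 : p ∣ p ^ ν + 1 := by rw [hed]; exact hd'.mul_left d
    have h3 : p ∣ 1 := (Nat.dvd_add_right (dvd_pow_self p (by omega))).1 h1
    exact (Fact.out : p.Prime).one_lt.ne' (Nat.dvd_one.1 h3)
  have hek : (e : k) ≠ 0 := by
    rw [Ne, CharP.cast_eq_zero_iff k p]
    exact hpe
  set T : RatFunc k := A (X : k[X]) with hT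
  have hTt : Transcendental k T := by
    intro hal
    have h5 := (isAlgebraic_algebraMap_iff (R := k) (S := k[X]) (A := RatFunc k)
      (RatFunc.algebraMap_injective k)).1 hal
    exact Polynomial.transcendental_X k h5
  have hT0 : T ≠ 0 := fun h0 => hTt (by rw [h0]; exact isAlgebraic_zero)
  have hWK : (crw d T).baseChange (RatFunc k) = crw d T := by
    ext
    · rfl
    · rfl
    · rfl
    · rfl
    · rfl
  let ι := {z : k // z ∈ nthRootsFinset d (1 : k)}
  letI : Fintype ι := Finset.Subtype.fintype _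
  have hι : ∀ z : ι, z.1 ^ d = 1 := fun z => (mem_nthRootsFinset hd 1).1 z.2
  have hcard : Fintype.card ι = d := by
    rw [Fintype.card_coe, hδ.card_nthRootsFinset]
  have hch : ∀ z : ι, ∃ s : k, s ≠ 0 ∧ s ^ e = z.1 := by
    intro z
    haveI : NeZero d := ⟨hd.ne'⟩
    obtain ⟨j, -, hj⟩ := hδ.eq_pow_of_pow_eq_one (hι z)
    exact ⟨ω ^ j, pow_ne_zero _ hω0, by rw [← hj, ← pow_mul, ← pow_mul, mul_comm]⟩
  choose s hs0 hs using hch
  have hpt := fun z : ι => points h6 hν hm hed he2 hi hω hTt (hι z)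
  choose R hR using hpt
  let oo : ι → RatFunc k → ℤ := fun w x => ordAt (X - C (s w) : k[X]) (irr (s w)) (phi he x)
  have hoo : ∀ w, IsOrd (oo w) := by
    intro w x y hx hy
    show ordAt _ _ (phi he (x * y)) = ordAt _ _ (phi he x) + ordAt _ _ (phi he y)
    rw [map_mul]
    exact isOrd_at (s w) _ _ ((_root_.map_ne_zero _).2 hx) ((_root_.map_ne_zero _).2 hy)
  have hoc : ∀ (w : ι) (c : k), c ≠ 0 → oo w (algebraMap k (RatFunc k) c) = 0 := by
    intro w c hc
    show ordAt _ _ (phi he (algebraMap k (RatFunc k) c)) = 0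
    rw [← A_C, phi_A, expand_C]
    exact ordAt_const _ _ hc
  have hoT' : ∀ w : ι, oo w T = 0 := by
    intro w
    show ordAt _ _ (phi he T) = 0
    rw [hT, phi_A, expand_X]
    have hnd : ¬ (X - C (s w) : k[X]) ∣ X ^ e := by
      rw [dvd_iff_isRoot, IsRoot, eval_pow, eval_X]
      exact pow_ne_zero _ (hs0 w)
    exact ordAt_of_not_dvd _ _ hnd
  have hroot : HasRoot (crw d T).toAffine ((2 * T - T ^ (d + 1)) / 3) :=
    hasRoot_mid h3K T (T ^ (d + 1))
  have hrootK : HasRoot ((crw d T).baseChange (RatFunc k)).toAffine ((2 * T - T ^ (d + 1)) / 3) :=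
    hasRoot_base (L := RatFunc k) hroot
  have hval0 : ∀ z w : ι, ((oo w (del ((crw d T).baseChange (RatFunc k)).toAffine
      ((2 * T - T ^ (d + 1)) / 3) (R z)) : ℤ) : ZMod 2) = if w = z then 1 else 0 := by
    intro z w
    have h5 := hR z (RatFunc k) (phi he) (ordAt (X - C (s w) : k[X]) (irr (s w))) (isOrd_at (s w))
      (splits he hε) (fun c hc => hoc w c hc)
    refine h5.trans ?_
    have e1 : phi he (T - algebraMap k (RatFunc k) z.1) = A (X ^ e - C z.1) := by
      have e2 : T - algebraMap k (RatFunc k) z.1 = A (X - C z.1) := by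
        rw [hT, ← A_C]
        exact (map_sub (algebraMap k[X] (RatFunc k)) _ _).symm
      rw [e2, phi_A, map_sub, expand_X, expand_C]
    rw [e1, ord_val hek (hs0 w), hs w]
    by_cases hwz : w = z
    · rw [if_pos hwz, if_pos (congrArg Subtype.val hwz)]
    · rw [if_neg hwz, if_neg (fun hc => hwz (Subtype.ext hc))]
  let o0 : RatFunc k → ℤ := ordAt (X - C (0 : k)) (irr 0)
  have ho0 : IsOrd o0 := isOrd_at 0
  have hoT : o0 T = -1 := by
    have e7 : T = A (X - C (0 : k)) := by rw [hT, C_0, sub_zero]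
    rw [e7]
    exact ordAt_self _ _
  have hroot0 : HasRoot (crw d T).toAffine (-(T + T ^ (d + 1)) / 3) :=
    hasRoot_fst h3K T (T ^ (d + 1))
  have hdd : 3 * (-(T + T ^ (d + 1)) / 3) ^ 2 + aOf T (T ^ (d + 1)) = T * T ^ (d + 1) := by
    unfold aOf
    field_simp
    ring
  have hn0 : ((crw d T).baseChange (RatFunc k)).toAffine.Nonsingular
      (-(T + T ^ (d + 1)) / 3) 0 := by
    rw [hWK, nonsingular_iff]
    constructor
    · rw [equation_iff]
      have h5 : (-(T + T ^ (d + 1)) / 3) ^ 3 + 0 * (-(T + T ^ (d + 1)) / 3) ^ 2 +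
        aOf T (T ^ (d + 1)) * (-(T + T ^ (d + 1)) / 3) + bOf T (T ^ (d + 1)) = 0 := hroot0.root
      show (0 : RatFunc k) ^ 2 + 0 * _ * 0 + 0 * 0 = _ ^ 3 + 0 * _ ^ 2 + aOf T (T ^ (d + 1)) * _ +
        bOf T (T ^ (d + 1))
      rw [h5]
      ring
    · left
      show (0 : RatFunc k) * 0 ≠ 3 * (-(T + T ^ (d + 1)) / 3) ^ 2 + 2 * 0 * _ +
        aOf T (T ^ (d + 1))
      intro h0
      apply mul_ne_zero hT0 (pow_ne_zero (d + 1) hT0)
      rw [← hdd]
      linear_combination -h0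
  let T0 : Pt (crw d T) (RatFunc k) := Point.some _ _ hn0
  have hneg : (-T) ≠ 0 := neg_ne_zero.2 hT0
  have hdel1 : del ((crw d T).baseChange (RatFunc k)).toAffine ((2 * T - T ^ (d + 1)) / 3) T0 =
      (-1) * T := by
    have e5 : -(T + T ^ (d + 1)) / 3 - (2 * T - T ^ (d + 1)) / 3 = (-1) * T := by
      field_simp
      ring
    show (if (-(T + T ^ (d + 1)) / 3) = ((2 * T - T ^ (d + 1)) / 3) then _ else
      (-(T + T ^ (d + 1)) / 3) - ((2 * T - T ^ (d + 1)) / 3)) = (-1) * T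
    rw [if_neg (fun h0 => by
      rw [h0, sub_self] at e5
      exact hneg (by rw [neg_eq_neg_one_mul]; exact e5.symm)), e5]
  have hm1 : (-1 : RatFunc k) ≠ 0 := neg_ne_zero.2 one_ne_zero
  have hm1k : (-1 : RatFunc k) = algebraMap k (RatFunc k) (-1) := by rw [map_neg, map_one]
  have hm10 : o0 (-1) = 0 := by
    rw [hm1k, ← A_C]
    exact ordAt_const _ _ (neg_ne_zero.2 one_ne_zero)
  let φ : Pt (crw d T) (RatFunc k) →+ (Option ι → ZMod 2) :=
    AddMonoidHom.pi fun o => match o with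
      | none => parHom hrootK o0 ho0
      | some w => parHom hrootK (oo w) (hoo w)
  have hsurj := surj_option φ R T0 hval0 (by
      show ((o0 (del ((crw d T).baseChange (RatFunc k)).toAffine
        ((2 * T - T ^ (d + 1)) / 3) T0) : ℤ) : ZMod 2) = 1
      rw [hdel1, ho0 _ _ hm1 hT0, hm10, hoT]
      decide) (by
      intro w
      show ((oo w (del ((crw d T).baseChange (RatFunc k)).toAffine
        ((2 * T - T ^ (d + 1)) / 3) T0) : ℤ) : ZMod 2) = 0
      rw [hdel1, hoo w _ _ hm1 hT0, hm1k, hoc w _ (neg_ne_zero.2 one_ne_zero), hoT', add_zero,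
        Int.cast_zero])
  have h22 : Set.Finite {P : Pt (crw d T) (RatFunc k) | P + P = 0} ∧
      Set.ncard {P : Pt (crw d T) (RatFunc k) | P + P = 0} ≤ 4 :=
    card_two_of_eq hWK (short_card_two h2K h3K T (T ^ (d + 1)))
  have hfin := exists_independent φ hsurj h22.1 h22.2
  rw [Fintype.card_option, hcard] at hfin
  exact hfin

end rat

section low

variable {k K : Type} [Field k] [Field K] [Algebra k K]

/-- The points on the pullbacks. -/
theorem lower (h6 : (6 : k) ≠ 0) {p : ℕ} [Fact p.Prime] [CharP k p] {ν m e d : ℕ}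
    (hν : 1 ≤ ν) (hm : p ^ ν + 1 = 2 * m) (hed : p ^ ν + 1 = d * e) (hdo : Odd d) {i : k}
    (hi : i ^ 2 = -1) {ω : k} (hω : IsPrimitiveRoot ω (p ^ ν + 1)) {h : K}
    (hh : Transcendental k h) :
    ∃ P : Fin (d - 1) → (crw d h).toAffine.Point, LinearIndependent ℤ P := by
  obtain ⟨P, hP⟩ := lower_rat h6 hν hm hed hdo hi hω
  have hinj : Function.Injective (aeval h : k[X] →ₐ[k] K).toRingHom :=
    transcendental_iff_injective.1 hh
  let f : RatFunc k →+* K := IsFractionRing.lift (A := k[X]) (K := RatFunc k) hinj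
  have hf : f (A X) = h := by
    have := IsFractionRing.lift_algebraMap (A := k[X]) (K := RatFunc k) hinj X
    refine this.trans ?_
    exact aeval_X h
  letI : Algebra (RatFunc k) K := f.toAlgebra
  have hfa : algebraMap (RatFunc k) K = f := rfl
  have hWK : (crw d (A (X : k[X]))).baseChange K = crw d h := by
    obtain ⟨hA, hB⟩ := map_crw f d (A X)
    rw [hf] at hA hB
    ext
    · exact map_zero _
    · exact map_zero _
    · exact map_zero _
    · exact hA
    · exact hB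
  let g : Pt (crw d (A (X : k[X]))) (RatFunc k) →+ Pt (crw d (A (X : k[X]))) K :=
    act (crw d (A (X : k[X]))) (incl (RatFunc k) (RatFunc k) K)
  have hg : Function.Injective g := act_inj _ _
  have hind : LinearIndependent ℤ (fun j => g (P j)) :=
    hP.map' g.toIntLinearMap (LinearMap.ker_eq_bot.2 hg)
  have hfin : ∃ P : Fin (d - 1) → ((crw d (A (X : k[X]))).baseChange K).toAffine.Point,
      LinearIndependent ℤ P := ⟨_, hind⟩
  exact hWK ▸ hfin

end low

section up

open FF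

variable {k K : Type} [Field k] [Finite k] [Field K] [Algebra k K] [FF.IsFF k K]

theorem upper (h6 : (6 : k) ≠ 0) (hc : constDeg k K = 1) (hcl : Odd (S.classNumber k K)) {d : ℕ}
    (hdo : Odd d) {ω : k} (hω : IsPrimitiveRoot ω d) {h : K} (hA : T8.Adm k d h)
    (M : ℕ) (hM : S.VanishesTo k (aOf h (h ^ (d + 1))) (bOf h (h ^ (d + 1))) M) : M ≤ d - 1 := by
  classical
  have hd0 : 0 < d := hdo.pos
  obtain ⟨h2K, h3K, hh0, hhc, hne⟩ := T8.facts h6 hd0 hA
  obtain ⟨v0, hv0, hv0d, hv0u⟩ := hA.zero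
  obtain ⟨vi, hvi, hvid, hviu⟩ := hA.pole
  set S0 := nthRootsFinset d (1 : k) with hS0
  have hS0' : ∀ z : k, z ∈ S0 ↔ z ^ d = 1 := fun z => by
    rw [hS0, mem_nthRootsFinset hd0]
  have hch : ∀ z : k, ∃ v : Place k K, z ∈ S0 → (0 < v.ord (h - algebraMap k K z) ∧
      Odd (v.ord (h - algebraMap k K z)) ∧ Odd (S.deg v) ∧
      ∀ w : Place k K, 0 < w.ord (h - algebraMap k K z) → w = v) := by
    intro z
    by_cases hz : z ∈ S0
    · obtain ⟨v, hv⟩ := hA.shift z ((hS0' z).1 hz)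
      exact ⟨v, fun _ => hv⟩
    · exact ⟨v0, fun h => absurd h hz⟩
  choose V hV using hch
  have hsh0 : ∀ z : k, h - algebraMap k K z ≠ 0 := fun z => sub_ne_zero.2 (hhc z)
  have hfac : h - h ^ (d + 1) = h * -∏ z ∈ S0, (h - algebraMap k K z) := by
    rw [← fac_sub hd0 hω]
    ring
  have hp0 : -∏ z ∈ S0, (h - algebraMap k K z) ≠ 0 :=
    neg_ne_zero.2 (Finset.prod_ne_zero_iff.2 fun z _ => hsh0 z)
  have hord : ∀ v : Place k K, v.ord (h - h ^ (d + 1)) =
      v.ord h + ∑ z ∈ S0, v.ord (h - algebraMap k K z) := by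
    intro v
    rw [hfac, v.ord_mul hh0 hp0, v.ord_neg, T4.ord_prod v _ _ (fun z _ => hsh0 z)]
  set B : Finset (Place k K) := insert vi (insert v0 (S0.image V)) with hB
  have hgood : ∀ v : Place k K, v ∉ B → v.ord (h ^ (d + 1)) = v.ord h ∧
      v.ord (h - h ^ (d + 1)) = v.ord h ∧ Even (v.ord h) := by
    intro v hv
    rw [hB, Finset.mem_insert, Finset.mem_insert, Finset.mem_image] at hv
    push Not at hv
    obtain ⟨g1, g2, g3⟩ := hv
    have hz : v.ord h = 0 := by
      rcases lt_trichotomy (v.ord h) 0 with h1 | h1 | h1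
      · exact absurd (hviu v h1) g1
      · exact h1
      · exact absurd (hv0u v h1) g2
    rw [hord, v.ord_pow, hz, mul_zero, zero_add]
    refine ⟨rfl, Finset.sum_eq_zero fun z hz' => ?_, Even.zero⟩
    have h1 := ord_nonneg_sub v hz.ge z
    have h3 : ¬ 0 < v.ord (h - algebraMap k K z) := fun h5 =>
      g3 z hz' ((hV z hz').2.2.2 v h5).symm
    omega
  have hne' : h ≠ h ^ (d + 1) := by
    intro e
    apply hne
    have e1 : h * 1 = h * h ^ d := by
      rw [mul_one, mul_comm, ← pow_succ]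
      exact e
    exact mul_left_cancel₀ hh0 e1
  have hsa := sa k K h6 hc hcl h (h ^ (d + 1)) hh0 (pow_ne_zero _ hh0) hne' B hgood M hM
  set F : Place k K → ℕ := fun v =>
    (if Even (min (v.ord h) (v.ord (h ^ (d + 1)))) then 1 else 2) * twoPart (S.deg v) with hF
  have hnn : ∀ z ∈ S0, (V z).ord h = 0 := by
    intro z hz
    have hz0 : z ≠ 0 := by
      rintro rfl
      have := (hS0' 0).1 hz
      rw [zero_pow hd0.ne'] at this
      exact zero_ne_one this
    exact (ord_of_zero (V z) (hV z hz).1 hz0).2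
  have hcard : S0.card = d := hω.card_nthRootsFinset
  have f4 : ∑ v ∈ S0.image V, F v ≤ d := by
    calc ∑ v ∈ S0.image V, F v = ∑ v ∈ S0.image V, 1 := by
          refine Finset.sum_congr rfl fun v hv => ?_
          obtain ⟨z, hz, rfl⟩ := Finset.mem_image.1 hv
          rw [hF]
          simp only
          rw [(V z).ord_pow, hnn z hz, mul_zero, min_self, if_pos Even.zero,
            twoPart_odd (hV z hz).2.2.1]
      _ = (S0.image V).card := by rw [Finset.sum_const, smul_eq_mul, mul_one]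
      _ ≤ S0.card := Finset.card_image_le
      _ = d := hcard
  have f5 : ∑ v ∈ B, F v ≤ F vi + (F v0 + ∑ v ∈ S0.image V, F v) :=
    (sum_insert_le _ _ _).trans (Nat.add_le_add_left (sum_insert_le _ _ _) _)
  have f6 : M + 4 ≤ ∑ v ∈ B, F v := hsa
  have f7 : F vi = 1 := by
    have h1 : vi.ord (h ^ (d + 1)) ≤ vi.ord h := by
      rw [vi.ord_pow]
      have h3 : ((d + 1 : ℕ) : ℤ) * vi.ord h = d * vi.ord h + vi.ord h := by
        push_cast
        ring
      rw [h3]
      have h5 : (d : ℤ) * vi.ord h ≤ 0 := mul_nonpos_of_nonneg_of_nonpos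
        (Int.natCast_nonneg d) hvi.le
      omega
    rw [hF]
    simp only
    rw [min_eq_right h1, if_pos (by
      rw [vi.ord_pow]
      exact Even.mul_right (by exact_mod_cast hdo.add_one) _), twoPart_odd hvid]
  have f8 : F v0 ≤ 2 := by
    rw [hF]
    simp only
    rw [twoPart_odd hv0d, mul_one]
    split_ifs <;> omega
  omega

theorem scale_a (d : ℕ) (h : K) : aOf h (h ^ (d + 1)) = h ^ 2 * aOf 1 (h ^ d) := by
  unfold aOf
  ring

theorem scale_b (d : ℕ) (h : K) : bOf h (h ^ (d + 1)) = h ^ 3 * bOf 1 (h ^ d) := by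
  unfold bOf
  ring

theorem main {p ν d : ℕ} (hp : p.Prime) (hp5 : 5 ≤ p) (hν : 1 ≤ ν) (hd : d ∣ p ^ ν + 1)
    (hdo : Odd d) {n : ℕ} (hcard : Nat.card k = p ^ (2 * ν * n))
    (hk : ∀ x : K, IsAlgebraic k x → x ∈ (algebraMap k K).range)
    (hcl : Odd (S.classNumber k K)) {h : K} (hA : T8.Adm k d h) :
    T8.RankOrder k (d - 1) (aOf h (h ^ (d + 1))) (bOf h (h ^ (d + 1))) := by
  have : Fact p.Prime := ⟨hp⟩
  have hch : CharP k p := charP_of_card hp hcard
  obtain ⟨⟨i, hi⟩, ω, hω⟩ := exists_prim_and_i (p := p) (by omega) hcard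
  have h6 : (6 : k) ≠ 0 := six_ne hp hp5
  obtain ⟨e, he⟩ := hd
  have hpo : Odd (p ^ ν) := (hp.odd_of_ne_two (by omega)).pow
  obtain ⟨m, hm⟩ : ∃ m, p ^ ν + 1 = 2 * m := by
    obtain ⟨r, hr⟩ := hpo
    exact ⟨r + 1, by rw [hr]; ring⟩
  have hδ : IsPrimitiveRoot (ω ^ e) d := hω.pow (by omega) (by rw [he, mul_comm])
  obtain ⟨h2K, h3K, hh0, hhc, hne⟩ := T8.facts h6 hdo.pos hA
  have hht : Transcendental k h := by
    intro hal
    obtain ⟨c, hc⟩ := hk h hal
    exact hhc c hc.symm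
  have hlow := lower h6 hν hm he hdo hi hω hht
  have hc : constDeg k K = 1 := T4.constDeg_eq_one hk
  have hup : ∀ M : ℕ, S.VanishesTo k (aOf h (h ^ (d + 1))) (bOf h (h ^ (d + 1))) M → M ≤ d - 1 := by
    intro M hM
    exact upper h6 hc hcl hdo hδ hA M hM
  have e1 : 4 * aOf h (h ^ (d + 1)) ^ 3 + 27 * bOf h (h ^ (d + 1)) ^ 2 =
      h ^ 6 * (4 * aOf 1 (h ^ d) ^ 3 + 27 * bOf 1 (h ^ d) ^ 2) := by
    rw [scale_a, scale_b]
    ring
  refine ⟨⟨?_, ?_⟩, hlow, hup, T5.equalities hlow hup⟩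
  · rw [e1]
    exact mul_ne_zero (pow_ne_zero 6 hh0) (T8.disc_ne h6 hdo.pos hA)
  · intro c hc'
    apply T8.j_ne h6 hdo.pos hA c
    have e2 : h ^ 6 * (6912 * aOf 1 (h ^ d) ^ 3) =
        h ^ 6 * (algebraMap k K c * (4 * aOf 1 (h ^ d) ^ 3 + 27 * bOf 1 (h ^ d) ^ 2)) := by
      rw [e1, scale_a] at hc'
      linear_combination hc'
    exact mul_left_cancel₀ (pow_ne_zero 6 hh0) e2

end up

end Pool.Agent.TH958.TB
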