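import Pool.Agent.TH958.T9.Fin
import Pool.Agent.TH958.TA.Low

/-!
Points on the twist by `h` of Legendre's curve `y ^ 2 = x (x - 1) (x - h ^ d)`, `d` an odd divisor of
`p ^ ν + 1`.
-/

set_option autoImplicit false
set_option linter.all false
set_option maxHeartbeats 4000000

open Polynomial WeierstrassCurve WeierstrassCurve.Affine
open scoped Classical

namespace Pool.Agent.TH958.TB

open Pool.Agent.W309.RK
open Pool.Agent.TH958.T7 (prod_eta sum_shift)
open Pool.Agent.TH958.T8 (IsOrd hasRoot_base del_act frob_identity card_two_of_eq)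
open Pool.Agent.TH958.T9 (kummer descend A A_inj A_C phi phi_A splits irr isOrd_at ordAt_const ord_val)
open Pool.Agent.TH115.GD (Pt act incl rs act_some fixed_point act_inj)

/-- The twist of Legendre's curve, in short form. -/
noncomputable def crw {F : Type} [Field F] (d : ℕ) (h : F) : WeierstrassCurve F :=
  shortW (aOf h (h ^ (d + 1))) (bOf h (h ^ (d + 1)))

theorem map_crw {K L : Type} [Field K] [Field L] (f : K →+* L) (d : ℕ) (h : K) :
    f (aOf h (h ^ (d + 1))) = aOf (f h) ((f h) ^ (d + 1)) ∧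
      f (bOf h (h ^ (d + 1))) = bOf (f h) ((f h) ^ (d + 1)) := by
  unfold aOf bOf
  constructor
  · simp only [map_sub, map_add, map_mul, map_pow, map_neg, map_div₀, map_ofNat, map_one]
  · simp only [map_sub, map_add, map_mul, map_pow, map_neg, map_div₀, map_ofNat, map_one]

section points

variable {k K : Type} [Field k] [Field K] [Algebra k K]

/-- The points over `K`: for every `z` with `z ^ d = 1` there is a point whose image under the
descent map given by a valuation trivial on the constants is the order of `h - z`. -/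
theorem points (h6 : (6 : k) ≠ 0) {p : ℕ} [Fact p.Prime] [CharP k p] {ν m e e' d : ℕ} (hν : 1 ≤ ν)
    (hm : p ^ ν + 1 = 2 * m) (hed : p ^ ν + 1 = d * e) (he2 : e = 2 * e') {i : k} (hi : i ^ 2 = -1)
    {ω : k} (hω : IsPrimitiveRoot ω (p ^ ν + 1)) {h : K} (hh : Transcendental k h) {z : k}
    (hz : z ^ d = 1) :
    ∃ R : Pt (crw d h) K, ∀ (M : Type) [Field M] (f : K →+* M) (ord : M → ℤ), IsOrd ord →
      ((X ^ e - C h : K[X]).map f).Splits →
      (∀ c : k, c ≠ 0 → ord (f (algebraMap k K c)) = 0) →
      ((ord (f (del ((crw d h).baseChange K).toAffine ((2 * h - h ^ (d + 1)) / 3) R)) : ℤ) :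
        ZMod 2) = ((ord (f (h - algebraMap k K z)) : ℤ) : ZMod 2) := by
  have h2 : (2 : k) ≠ 0 := fun e => h6 (by linear_combination 3 * e)
  have h3 : (3 : k) ≠ 0 := fun e => h6 (by linear_combination 2 * e)
  have hprod : 0 < d * e := by omega
  have hd : 0 < d := Nat.pos_of_mul_pos_right hprod
  have he : 0 < e := Nat.pos_of_mul_pos_left hprod
  have hε : IsPrimitiveRoot (ω ^ d) e := hω.pow (by omega) hed
  have hδ : IsPrimitiveRoot (ω ^ e) d := hω.pow (by omega) (by rw [hed, mul_comm])
  have hpe : ¬ p ∣ e := by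
    intro hd'
    have h1 : p ∣ p ^ ν + 1 := by rw [hed]; exact hd'.mul_left d
    have h3 : p ∣ 1 := (Nat.dvd_add_right (dvd_pow_self p (by omega))).1 h1
    exact (Fact.out : p.Prime).one_lt.ne' (Nat.dvd_one.1 h3)
  haveI : CharP K p := charP_of_injective_ringHom (algebraMap k K).injective p
  have heK : (e : K) ≠ 0 := by
    rw [Ne, CharP.cast_eq_zero_iff K p]
    exact hpe
  have hh0 : h ≠ 0 := by
    rintro rfl
    exact hh isAlgebraic_zero
  have hεK : IsPrimitiveRoot (algebraMap k K (ω ^ d)) e :=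
    hε.map_of_injective (algebraMap k K).injective
  obtain ⟨L, iF, iA, g, iFD, iG, hg, hσ, hfin⟩ := kummer he heK hεK hh0
  letI : Algebra k L := ((algebraMap K L).comp (algebraMap k K)).toAlgebra
  haveI : IsScalarTower k K L := IsScalarTower.of_algebraMap_eq' rfl
  haveI : CharP L p := charP_of_injective_ringHom (algebraMap k L).injective p
  have hkL : ∀ c : k, algebraMap k L c = algebraMap K L (algebraMap k K c) := fun c => rfl
  have h2L : (2 : L) ≠ 0 := by
    have : algebraMap k L 2 ≠ 0 := by simpa using h2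
    rwa [map_ofNat] at this
  have h3L : (3 : L) ≠ 0 := by
    have : algebraMap k L 3 ≠ 0 := by simpa using h3
    rwa [map_ofNat] at this
  have h3K : (3 : K) ≠ 0 := by
    have : algebraMap k K 3 ≠ 0 := by simpa using h3
    rwa [map_ofNat] at this
  have hi0 : i ≠ 0 := by
    rintro rfl
    rw [zero_pow two_ne_zero] at hi
    exact one_ne_zero (neg_eq_zero.1 hi.symm)
  have hiL : (algebraMap k L i) ^ 2 = -1 := by rw [← map_pow, hi, map_neg, map_one]
  have hiL0 : algebraMap k L i ≠ 0 := (_root_.map_ne_zero _).2 hi0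
  -- `g` is transcendental
  have hgt : Transcendental k g := by
    intro hal
    apply hh
    have h5 : IsAlgebraic k (algebraMap K L h) := by rw [← hg]; exact hal.pow e
    exact (isAlgebraic_algebraMap_iff (algebraMap K L).injective).1 h5
  have hg0 : g ≠ 0 := by
    rintro rfl
    exact hgt isAlgebraic_zero
  have hzt : ∀ t : k, t ≠ 0 → Transcendental k (algebraMap k L t * g) := by
    intro t ht h5
    apply hgt
    have h7 : g = algebraMap k L t⁻¹ * (algebraMap k L t * g) := by
      rw [← mul_assoc, ← map_mul, inv_mul_cancel₀ ht, map_one, one_mul]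
    rw [h7]
    exact (isAlgebraic_algebraMap _).mul h5
  have hgQ : (algebraMap K L h) ^ d = g ^ (p ^ ν + 1) := by
    rw [← hg, ← pow_mul, hed, mul_comm]
  have hhL0 : algebraMap K L h ≠ 0 := (_root_.map_ne_zero _).2 hh0
  have hWL : (crw d h).baseChange L = crw d (algebraMap K L h) := by
    obtain ⟨hA, hB⟩ := map_crw (algebraMap K L) d h
    unfold crw
    ext
    · exact map_zero _
    · exact map_zero _
    · exact map_zero _
    · exact hA
    · exact hB
  have hroot : HasRoot (crw d h).toAffine ((2 * h - h ^ (d + 1)) / 3) :=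
    hasRoot_mid h3K h (h ^ (d + 1))
  have hrootL := hasRoot_base (L := L) hroot
  have heL : algebraMap K L ((2 * h - h ^ (d + 1)) / 3) =
      (2 * algebraMap K L h - (algebraMap K L h) ^ (d + 1)) / 3 := by
    simp only [map_sub, map_add, map_mul, map_pow, map_neg, map_div₀, map_ofNat, map_one]
  -- the parameter
  obtain ⟨t, htz, htQ⟩ : ∃ t : k, t ^ e * z = 1 ∧ t ^ (p ^ ν + 1) = 1 := by
    haveI : NeZero d := ⟨hd.ne'⟩
    obtain ⟨j, -, hj⟩ := hδ.eq_pow_of_pow_eq_one hz
    have hω0 : ω ≠ 0 := hω.ne_zero (by omega)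
    refine ⟨(ω ^ j)⁻¹, ?_, ?_⟩
    · rw [← hj, inv_pow, ← pow_mul, ← pow_mul, mul_comm j e]
      exact inv_mul_cancel₀ (pow_ne_zero _ hω0)
    · rw [inv_pow, ← pow_mul, mul_comm, pow_mul, hω.pow_eq_one, one_pow, inv_one]
  have ht0 : t ≠ 0 := by
    rintro rfl
    rw [zero_pow (by omega)] at htQ
    exact zero_ne_one htQ
  have htη : ∀ η : k, η ^ e = 1 → (t * η) ^ (p ^ ν + 1) = 1 := by
    intro η hη
    rw [mul_pow, htQ, one_mul, hed, mul_comm, pow_mul, hη, one_pow]
  have hη0 : ∀ η : k, η ^ e = 1 → η ≠ 0 := by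
    intro η hη h0
    rw [h0, zero_pow he.ne'] at hη
    exact zero_ne_one hη
  -- the points over `L`
  let c : k → L := fun η => algebraMap k L (η ^ e') * g ^ (3 * e')
  have hcd : ∀ η, c η = algebraMap k L (η ^ e') * g ^ (3 * e') := fun η => rfl
  have hcc : ∀ η : k, η ^ e = 1 → (c η) ^ 2 = (algebraMap K L h) ^ 3 := by
    intro η hη
    have e3 : (η ^ e') ^ 2 = 1 := by rw [← pow_mul, mul_comm, ← he2, hη]
    rw [hcd, mul_pow, ← map_pow, e3, map_one, one_mul, ← hg, ← pow_mul, ← pow_mul, he2]
    congr 1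
    ring
  have hpt : ∀ η : k, ∃ P : Pt (crw d h) L, η ^ e = 1 →
      ∃ hn : ((crw d h).baseChange L).toAffine.Nonsingular
        (algebraMap K L h * (algebraMap k L (t * η) * g) -
          (algebraMap K L h + (algebraMap K L h) ^ (d + 1)) / 3)
        (c η * (algebraMap k L i * (algebraMap k L (t * η) * g) *
          (algebraMap k L (t * η) * g - 1) ^ m)),
        P = Point.some _ _ hn := by
    intro η
    by_cases hη : η ^ e = 1
    · have ht := htη η hη
      have htn : t * η ≠ 0 := mul_ne_zero ht0 (hη0 η hη)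
      have hx0 : algebraMap k L (t * η) * g ≠ 0 := fun h0 => hzt _ htn (by
        rw [h0]; exact isAlgebraic_zero)
      have hx1 : algebraMap k L (t * η) * g - 1 ≠ 0 := fun h0 => hzt _ htn (by
        rw [sub_eq_zero.1 h0]; exact isAlgebraic_one)
      have hc0 : c η ≠ 0 := by
        intro h0
        have := hcc η hη
        rw [h0, zero_pow two_ne_zero] at this
        exact pow_ne_zero 3 hhL0 this.symm
      have hy0 : c η * (algebraMap k L i * (algebraMap k L (t * η) * g) *
          (algebraMap k L (t * η) * g - 1) ^ m) ≠ 0 :=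
        mul_ne_zero hc0 (mul_ne_zero (mul_ne_zero hiL0 hx0) (pow_ne_zero m hx1))
      have hxx : (algebraMap k L (t * η) * g) ^ (p ^ ν + 1) = (algebraMap K L h) ^ d := by
        rw [mul_pow, ← map_pow, ht, map_one, one_mul, hgQ]
      have hid := frob_identity (p := p) (ν := ν) hiL hm (algebraMap k L (t * η) * g)
      rw [hxx] at hid
      have hn : ((crw d h).baseChange L).toAffine.Nonsingular
          (algebraMap K L h * (algebraMap k L (t * η) * g) -
            (algebraMap K L h + (algebraMap K L h) ^ (d + 1)) / 3)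
          (c η * (algebraMap k L i * (algebraMap k L (t * η) * g) *
            (algebraMap k L (t * η) * g - 1) ^ m)) := by
        rw [hWL]
        refine short_ns h2L h3L hy0 ?_
        rw [mul_pow, hcc η hη, hid]
        ring
      exact ⟨Point.some _ _ hn, fun _ => ⟨hn, rfl⟩⟩
    · exact ⟨0, fun h => absurd h hη⟩
  choose P hP using hpt
  set R : Pt (crw d h) L := ∑ η ∈ nthRootsFinset e (1 : k), P (1 * η) with hR
  -- invariance
  have hinv : ∀ σ : L ≃ₐ[K] L, act (crw d h) (rs K σ) R = R := by
    intro σ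
    obtain ⟨η₁, hη₁, hση⟩ := hσ σ
    haveI : NeZero e := ⟨he.ne'⟩
    obtain ⟨j, -, hj⟩ := hεK.eq_pow_of_pow_eq_one hη₁
    set η₀ : k := (ω ^ d) ^ j with hη₀
    have hη₀1 : algebraMap k K η₀ = η₁ := by rw [← hj, hη₀, map_pow]
    have hη₀e : η₀ ^ e = 1 := by
      rw [hη₀, ← pow_mul, mul_comm, pow_mul, hε.pow_eq_one, one_pow]
    have hσg : σ g = algebraMap k L η₀ * g := by rw [hση, hkL η₀, hη₀1]
    have hσc : ∀ c : k, σ (algebraMap k L c) = algebraMap k L c := fun c => by
      rw [hkL, σ.commutes]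
    have hσZ : ∀ η : k, σ (algebraMap k L (t * η) * g) = algebraMap k L (t * (η * η₀)) * g := by
      intro η
      rw [map_mul, hσg, hσc, ← mul_assoc t, map_mul (algebraMap k L) (t * η) η₀]
      ring
    have hcσ : ∀ η : k, σ (c η) = c (η * η₀) := by
      intro η
      have h9 : (η₀ ^ e') ^ 2 = 1 := by rw [← pow_mul, mul_comm, ← he2, hη₀e]
      have e1 : η₀ ^ (3 * e') = η₀ ^ e' := by
        have : 3 * e' = e' * 2 + e' := by ring
        rw [this, pow_add, pow_mul, h9, one_mul]
      rw [hcd, hcd, map_mul, hσc, map_pow σ g, hσg, mul_pow, ← map_pow (algebraMap k L) η₀, e1,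
        mul_pow η η₀, map_mul]
      ring
    have h5 : ∀ η : k, η ^ e = 1 → act (crw d h) (rs K σ) (P η) = P (η * η₀) := by
      intro η hη
      have hη' : (η * η₀) ^ e = 1 := by
        rw [mul_pow, hη, hη₀e, one_mul]
      obtain ⟨hn1, hP1⟩ := hP η hη
      obtain ⟨hn2, hP2⟩ := hP _ hη'
      rw [hP1, hP2]
      obtain ⟨h7, h9⟩ := act_some (crw d h) (rs K σ) hn1
      rw [h9]
      have e1 : (rs K σ) (algebraMap K L h * (algebraMap k L (t * η) * g) -
          (algebraMap K L h + (algebraMap K L h) ^ (d + 1)) / 3) =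
          algebraMap K L h * (algebraMap k L (t * (η * η₀)) * g) -
          (algebraMap K L h + (algebraMap K L h) ^ (d + 1)) / 3 := by
        show σ _ = _
        rw [map_sub, map_mul, hσZ, σ.commutes, map_div₀, map_add, map_pow, σ.commutes, map_ofNat]
      have e2 : (rs K σ) (c η * (algebraMap k L i * (algebraMap k L (t * η) * g) *
          (algebraMap k L (t * η) * g - 1) ^ m)) =
          c (η * η₀) * (algebraMap k L i * (algebraMap k L (t * (η * η₀)) * g) *
          (algebraMap k L (t * (η * η₀)) * g - 1) ^ m) := by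
        show σ _ = _
        rw [map_mul, hcσ, map_mul, map_mul, hσZ, hσc, map_pow, map_sub, hσZ, map_one]
      rw [Point.some.injEq]
      exact ⟨e1, e2⟩
    rw [hR, map_sum, ← sum_shift he P hη₀e 1]
    refine Finset.sum_congr rfl fun η hη => ?_
    rw [one_mul]
    exact h5 _ ((mem_nthRootsFinset he 1).1 hη)
  obtain ⟨R0, hR0⟩ := descend (crw d h) R hinv
  refine ⟨R0, fun M _ f ord ho hspl hoc => ?_⟩
  obtain ⟨j, hj⟩ := hfin M f hspl
  have hoL : IsOrd (fun x : L => ord (j x)) := by
    intro x y hx hy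
    show ord (j (x * y)) = ord (j x) + ord (j y)
    rw [map_mul, ho _ _ ((_root_.map_ne_zero j).2 hx) ((_root_.map_ne_zero j).2 hy)]
  have e0 : ord (f (del ((crw d h).baseChange K).toAffine ((2 * h - h ^ (d + 1)) / 3) R0)) =
      ord (j (del ((crw d h).baseChange L).toAffine
        (algebraMap K L ((2 * h - h ^ (d + 1)) / 3)) R)) := by
    rw [← hR0, hj]
  have hx1 : ∀ η ∈ nthRootsFinset e (1 : k), algebraMap k L η * (algebraMap k L t * g) - 1 ≠ 0 := by
    intro η hη h0
    refine hzt (t * η) (mul_ne_zero ht0 (hη0 η ((mem_nthRootsFinset he 1).1 hη))) ?_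
    have h5 : algebraMap k L (t * η) * g = 1 := by
      rw [map_mul]
      linear_combination h0
    rw [h5]
    exact isAlgebraic_one
  have hdel : ∀ η ∈ nthRootsFinset e (1 : k),
      ((ord (j (del ((crw d h).baseChange L).toAffine
        (algebraMap K L ((2 * h - h ^ (d + 1)) / 3)) (P (1 * η)))) : ℤ) : ZMod 2) =
        ((ord (f h) : ℤ) : ZMod 2) +
          ((ord (j (algebraMap k L η * (algebraMap k L t * g) - 1)) : ℤ) : ZMod 2) := by
    intro η hη
    obtain ⟨hn, hPn⟩ := hP η ((mem_nthRootsFinset he 1).1 hη)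
    rw [one_mul, hPn]
    have e1 : algebraMap K L h * (algebraMap k L (t * η) * g) -
          (algebraMap K L h + (algebraMap K L h) ^ (d + 1)) / 3 -
        algebraMap K L ((2 * h - h ^ (d + 1)) / 3) =
          algebraMap K L h * (algebraMap k L η * (algebraMap k L t * g) - 1) := by
      rw [heL, map_mul]
      field_simp
      ring
    have hne := mul_ne_zero hhL0 (hx1 η hη)
    have e2 : del ((crw d h).baseChange L).toAffine
        (algebraMap K L ((2 * h - h ^ (d + 1)) / 3)) (Point.some _ _ hn) =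
          algebraMap K L h * (algebraMap k L η * (algebraMap k L t * g) - 1) := by
      simp only [del]
      rw [if_neg (fun h1 => hne (by rw [← e1, h1, sub_self])), e1]
    have e3 := hoL _ _ hhL0 (hx1 η hη)
    simp only at e3
    rw [e2, e3, hj]
    push_cast
    rfl
  have hsum : ((ord (j (del ((crw d h).baseChange L).toAffine
      (algebraMap K L ((2 * h - h ^ (d + 1)) / 3)) R)) : ℤ) : ZMod 2) =
      ∑ η ∈ nthRootsFinset e (1 : k), ((ord (j (del ((crw d h).baseChange L).toAffine
        (algebraMap K L ((2 * h - h ^ (d + 1)) / 3)) (P (1 * η)))) : ℤ) : ZMod 2) :=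
    map_sum (parHom hrootL (fun x : L => ord (j x)) hoL) (fun η => P (1 * η))
      (nthRootsFinset e (1 : k))
  have he0 : (e : ZMod 2) = 0 :=
    (ZMod.natCast_eq_zero_iff _ _).2 ⟨e', he2⟩
  rw [e0, hsum, Finset.sum_congr rfl hdel, Finset.sum_add_distrib, Finset.sum_const,
    hε.card_nthRootsFinset, nsmul_eq_mul, he0, zero_mul, zero_add]
  have e9 : ∑ η ∈ nthRootsFinset e (1 : k),
      ((ord (j (algebraMap k L η * (algebraMap k L t * g) - 1)) : ℤ) : ZMod 2) =
      ((ord (j (∏ η ∈ nthRootsFinset e (1 : k),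
        (algebraMap k L η * (algebraMap k L t * g) - 1))) : ℤ) : ZMod 2) := by
    have h5 := hoL.prod (nthRootsFinset e (1 : k))
      (fun η => algebraMap k L η * (algebraMap k L t * g) - 1) hx1
    rw [h5, Int.cast_sum]
  rw [e9]
  obtain ⟨c', hc0, hc⟩ := prod_eta he hε (algebraMap k L t * g)
  have e7 : algebraMap k L c' * ((algebraMap k L t * g) ^ e - 1) =
      algebraMap K L (algebraMap k K (c' * t ^ e) * (h - algebraMap k K z)) := by
    have h9 : algebraMap k K (t ^ e) * algebraMap k K z = 1 := by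
      rw [← map_mul, htz, map_one]
    have h11 : algebraMap k K (c' * t ^ e) * (h - algebraMap k K z) =
        algebraMap k K c' * (algebraMap k K (t ^ e) * h - 1) := by
      rw [map_mul]
      linear_combination (-algebraMap k K c') * h9
    rw [h11, mul_pow, hg, map_mul, map_sub, map_mul, map_one, hkL, ← map_pow, hkL]
  have hhz : h - algebraMap k K z ≠ 0 := by
    intro h0
    apply hh
    rw [sub_eq_zero.1 h0]
    exact isAlgebraic_algebraMap _
  have hct : c' * t ^ e ≠ 0 := mul_ne_zero hc0 (pow_ne_zero _ ht0)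
  have hct' : algebraMap k K (c' * t ^ e) ≠ 0 := (_root_.map_ne_zero _).2 hct
  rw [hc, e7, hj, map_mul, ho _ _ ((_root_.map_ne_zero f).2 hct') ((_root_.map_ne_zero f).2 hhz),
    hoc _ hct, zero_add]

end points

end Pool.Agent.TH958.TB
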